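import Pool.Agent.W583.GP.RS
import Pool.Agent.W9.PL.Defs

/-!
# Riemann sums on the whole line, decay `1/(1+x^2)` (PL-RS)
-/

set_option autoImplicit false

open MeasureTheory Filter Finset
open scoped Topology

namespace Pool.Agent.W762.PLR

open Pool.Agent.W583.GP

theorem rs : Pool.Agent.W9.PL.S_rs := by
  rintro f hf ⟨C, hC⟩
  have hC0 : 0 ≤ C := by
    have := hC 0
    have h3 : C / (1 + (0 : ℝ) ^ 2) = C := by norm_num
    rw [h3] at this
    exact (abs_nonneg _).trans this
  have hlim : Tendsto (fun m : ℕ => ∫ x, stp f m x) atTop (𝓝 (∫ x, f x)) := by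
    refine tendsto_integral_filter_of_dominated_convergence
      (fun x => (3 * C) * (1 + x ^ 2)⁻¹) ?_ ?_ ?_ ?_
    · refine Eventually.of_forall fun m => ?_
      refine Measurable.aestronglyMeasurable ?_
      unfold stp
      refine Finset.measurable_sum _ fun j _ => ?_
      exact measurable_const.indicator measurableSet_Ico
    · filter_upwards [eventually_gt_atTop 0] with m hm
      refine Eventually.of_forall fun x => ?_
      rw [stp_eq f hm, Real.norm_eq_abs]
      have hnn : 0 ≤ (3 * C) * (1 + x ^ 2)⁻¹ := by positivity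
      split_ifs with h
      · refine (hC _).trans ?_
        set t : ℝ := (⌊(m : ℝ) * x⌋ : ℝ) / m with ht
        have h1 := floor_near hm x
        rw [← ht] at h1
        have hm1 : (1 : ℝ) / m ≤ 1 := by
          rw [div_le_one (by exact_mod_cast hm)]
          exact_mod_cast hm
        have h2 : |t - x| ≤ 1 := h1.trans hm1
        have h3 : (t - x) ^ 2 ≤ 1 := by
          rw [← sq_abs]
          nlinarith [abs_nonneg (t - x)]
        have h4 : 1 + x ^ 2 ≤ 3 * (1 + t ^ 2) := by
          nlinarith [sq_nonneg (t + (t - x))]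
        rw [div_le_iff₀ (by positivity), mul_assoc, mul_comm (1 + x ^ 2)⁻¹, ← div_eq_mul_inv,
          mul_div_assoc', le_div_iff₀ (by positivity)]
        calc C * (1 + x ^ 2) ≤ C * (3 * (1 + t ^ 2)) := mul_le_mul_of_nonneg_left h4 hC0
          _ = 3 * C * (1 + t ^ 2) := by ring
      · rw [abs_zero]; exact hnn
    · exact integrable_inv_one_add_sq.const_mul _
    · refine Eventually.of_forall fun x => ?_
      have h1 : Tendsto (fun m : ℕ => (⌊(m : ℝ) * x⌋ : ℝ) / m) atTop (𝓝 x) := by
        rw [tendsto_iff_dist_tendsto_zero]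
        refine squeeze_zero' (Eventually.of_forall fun m => dist_nonneg) ?_
          (tendsto_one_div_atTop_nhds_zero_nat (𝕜 := ℝ))
        filter_upwards [eventually_gt_atTop 0] with m hm
        rw [Real.dist_eq]
        exact floor_near hm x
      have h2 : Tendsto (fun m : ℕ => f ((⌊(m : ℝ) * x⌋ : ℝ) / m)) atTop (𝓝 (f x)) :=
        (hf.tendsto x).comp h1
      refine h2.congr' ?_
      obtain ⟨N, hN⟩ := exists_nat_ge (|x| + 1)
      filter_upwards [eventually_ge_atTop N, eventually_gt_atTop 0] with m hm hm0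
      rw [stp_eq f hm0, if_pos]
      have hm' : (0 : ℝ) < m := by exact_mod_cast hm0
      have hmx : |x| + 1 ≤ (m : ℝ) := hN.trans (by exact_mod_cast hm)
      have hm1 : (1 : ℝ) ≤ m := by exact_mod_cast hm0
      have k1 := Int.floor_le ((m : ℝ) * x)
      have k2 := Int.lt_floor_add_one ((m : ℝ) * x)
      have k3 : |(m : ℝ) * x| + 1 ≤ (m : ℝ) ^ 2 := by
        rw [abs_mul, abs_of_pos hm']
        nlinarith [abs_nonneg x]
      have k4 := abs_le.1 (le_refl |(m : ℝ) * x|)
      have k5 : |(⌊(m : ℝ) * x⌋ : ℝ)| ≤ (m : ℝ) ^ 2 := by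
        rw [abs_le]
        constructor <;> linarith [k4.1, k4.2]
      exact_mod_cast k5
  refine hlim.congr' ?_
  filter_upwards [eventually_gt_atTop 0] with m hm
  exact stp_integral f hm

end Pool.Agent.W762.PLR
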